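import Pool.Agent.H973R2.Exp3

/-!
One arm in a quarter annulus: the gluing argument.
-/

set_option autoImplicit false

namespace Pool.Agent.Y993.SN

open H974 H973 Finset

/-- Crossing of the quarter annulus: a vertex of `[0, a]²` is connected in `[0, N]²` to the upper
or right side of `[0, N]²`. -/
def QC (a N : ℤ) (F : Finset Edg) : Prop :=
  ∃ u v : Vtx, inR 0 a 0 a u ∧ inR 0 N 0 N v ∧ (v.1 = N ∨ v.2 = N) ∧
    Reach ((F : Set Edg) ∩ ↑(RE 0 N 0 N)) u v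

theorem QC.mono {a N : ℤ} {F G : Finset Edg} (h : F ⊆ G) (hF : QC a N F) : QC a N G := by
  obtain ⟨u, v, h1, h2, h3, h4⟩ := hF
  exact ⟨u, v, h1, h2, h3, h4.mono (Set.inter_subset_inter_left _ (by exact_mod_cast h))⟩

theorem QC_incr (S : Finset Edg) (a N : ℤ) : IncrE S (QC a N) := fun _ _ h _ hF => hF.mono h

theorem ES_QT (n : ℤ) : ES (QT n) = RE 0 n 0 n := by
  ext e
  rw [mem_ES, mem_QT, mem_QT]
  constructor
  · intro h
    exact mem_RE_of_ends (by unfold inR; omega) (by unfold inR; omega)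
  · intro h
    have := mem_RE_ends h
    unfold inR at this
    omega

theorem reach_inR {a b c d : ℤ} {F : Set Edg} (hF : ∀ e ∈ F, e ∈ RE a b c d) {u v : Vtx}
    (hu : inR a b c d u) (h : Reach F u v) : inR a b c d v := by
  induction h with
  | refl => exact hu
  | tail _ hs _ =>
    obtain ⟨e, he, hc⟩ := hs
    have := mem_RE_ends (hF e he)
    rcases hc with ⟨_, h2⟩ | ⟨h1, _⟩
    · rw [← h2]; exact this.2
    · rw [← h1]; exact this.1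

/-- Every path from `[0, a]²` to the outside of `[0, 3a]²` meets the vertical crossing. -/
theorem hub {a : ℤ} (ha : 1 ≤ a) {F : Set Edg} {y3 y3' x4 x4' : ℤ}
    (h3 : Reach (F ∩ ↑(RE 0 (3 * a) a (3 * a))) (0, y3) (3 * a, y3'))
    (h4 : Reach (F ∩ ↑(RE a (3 * a) 0 (3 * a))) (x4, 0) (x4', 3 * a))
    {p w : Vtx} (hp : inR 0 a 0 a p) (hw : 3 * a ≤ w.1 ∨ 3 * a ≤ w.2)
    (h : Reach (F ∩ ↑(RE 0 (3 * a) 0 (3 * a))) p w) :
    Reach (F ∩ ↑(RE 0 (3 * a) 0 (3 * a))) p (x4, 0) := by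
  unfold inR at hp
  have m0 : Reach (F ∩ ↑(RE 0 (3 * a) 0 (3 * a))) (0, y3) (x4, 0) :=
    cross_meet (a := a) (b := 3 * a) (c := a) (d := 3 * a) (by omega) (by omega) le_rfl
      (by omega) (by omega) le_rfl h3 (by simp only; omega) le_rfl h4 (by simp only; omega) le_rfl
  rcases hw with hw | hw
  · exact cross_meet (a := a) (b := 3 * a) (c := 0) (d := 3 * a) (by omega) (by omega) le_rfl
      le_rfl (by omega) le_rfl h (by omega) hw h4 le_rfl le_rfl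
  · have m1 : Reach (F ∩ ↑(RE 0 (3 * a) 0 (3 * a))) (0, y3) p :=
      cross_meet (a := 0) (b := 3 * a) (c := a) (d := 3 * a) le_rfl (by omega) le_rfl
        (by omega) (by omega) le_rfl h3 le_rfl le_rfl h (by omega) hw
    exact m1.symm.trans m0

/-- **Gluing.** -/
theorem glue_quarter {a N : ℤ} (ha : 1 ≤ a) (hN : 3 * a ≤ N) {F : Finset Edg}
    (h1 : armC (QT (3 * a)) (0, 0) (3 * a) (F ∩ ES (QT (3 * a))))
    (h3 : LRc 0 (3 * a) a (3 * a) F) (h4 : TBc a (3 * a) 0 (3 * a) F) (h2 : QC a N F) :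
    armC (QT N) (0, 0) N F := by
  obtain ⟨y, hy, hy1, hy2⟩ := h1
  obtain ⟨y3, y3', a1, a2, a3⟩ := h3
  obtain ⟨x4, x4', b1, b2, b3⟩ := h4
  obtain ⟨u, v, hu, hv, hv', huv⟩ := h2
  have a3' : Reach ((F : Set Edg) ∩ ↑(RE 0 (3 * a) a (3 * a))) (0, y3) (3 * a, y3') :=
    a3.mono (Set.inter_subset_inter_right _ (by exact_mod_cast LRE_subset_RE))
  have b3' : Reach ((F : Set Edg) ∩ ↑(RE a (3 * a) 0 (3 * a))) (x4, 0) (x4', 3 * a) :=
    b3.mono (Set.inter_subset_inter_right _ (by exact_mod_cast TBE_subset_RE))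
  rw [mem_QT] at hy
  unfold onBX at hy1
  simp only [zero_sub, zero_add] at hy1
  rw [ES_QT, Finset.coe_inter] at hy2
  have k1 : Reach ((F : Set Edg) ∩ ↑(RE 0 (3 * a) 0 (3 * a))) (0, 0) (x4, 0) :=
    hub ha a3' b3' (by unfold inR; simp only; omega) (by omega) hy2
  obtain ⟨w, hw1, hw2, hw3⟩ := first_exit (a := -1) (b := 3 * a) (c := -1) (d := 3 * a)
    (by unfold inR at hu ⊢; omega) huv (by omega)
  have hwN : inR 0 N 0 N w := by
    refine reach_inR (F := (F : Set Edg) ∩ ↑(RE 0 N 0 N)) (fun e he => Finset.mem_coe.mp he.2)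
      (by unfold inR at hu ⊢; omega) (hw3.mono Set.inter_subset_left)
  have hw3' : Reach ((F : Set Edg) ∩ ↑(RE 0 (3 * a) 0 (3 * a))) u w := by
    apply hw3.mono
    rintro e ⟨⟨he1, he2⟩, he3⟩
    refine ⟨he1, Finset.mem_coe.mpr ?_⟩
    have e2 := mem_RE_ends (Finset.mem_coe.mp he2)
    have e3 := mem_RE_ends (Finset.mem_coe.mp he3)
    unfold inR at e2 e3
    exact mem_RE_of_ends (by unfold inR; omega) (by unfold inR; omega)
  have k2 : Reach ((F : Set Edg) ∩ ↑(RE 0 (3 * a) 0 (3 * a))) u (x4, 0) := by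
    refine hub ha a3' b3' hu ?_ hw3'
    unfold inR at hwN
    omega
  refine ⟨v, ?_, ?_, ?_⟩
  · rw [mem_QT]; exact hv
  · unfold onBX
    simp only [zero_sub, zero_add]
    omega
  · exact (k1.mono Set.inter_subset_left).trans
      ((k2.symm.mono Set.inter_subset_left).trans (huv.mono Set.inter_subset_left))

theorem quarter_mul {a N : ℤ} (ha : 1 ≤ a) (hN : 3 * a ≤ N) :
    armP (QT (3 * a)) (3 * a) * dlt * dlt * Pr (fun _ => (1/2 : ℝ)) (RE 0 N 0 N) (QC a N) ≤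
      armP (QT N) N := by
  have hd0 := dlt_pos.le
  have hsub : QT (3 * a) ⊆ QT N := by
    intro y hy
    rw [mem_QT] at hy ⊢
    omega
  set S := ES (QT N) with hS
  have p1 : armP (QT (3 * a)) (3 * a) ≤ Pr (fun _ => (1/2 : ℝ)) S
      (fun F => armC (QT (3 * a)) (0, 0) (3 * a) (F ∩ ES (QT (3 * a)))) := by
    rw [Pr_restrict (S' := ES (QT (3 * a))) (ES_mono hsub) (armC (QT (3 * a)) (0, 0) (3 * a))]
    exact le_rfl
  have p2 : dlt ≤ Pr (fun _ => (1/2 : ℝ)) S (LRc 0 (3 * a) a (3 * a)) := by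
    rw [pr_LRc]
    · exact rswL (m := a) (by omega) (by omega) (by omega) (by omega)
    · refine LRE_subset_RE.trans ?_
      rw [hS, ES_QT]
      exact RE_subset le_rfl (by omega) (by omega) (by omega)
  have p3 : dlt ≤ Pr (fun _ => (1/2 : ℝ)) S (TBc a (3 * a) 0 (3 * a)) := by
    rw [pr_TBc]
    · exact rswL (m := a) (by omega) (by omega) (by omega) (by omega)
    · refine TBE_subset_RE.trans ?_
      rw [hS, ES_QT]
      exact RE_subset (by omega) (by omega) le_rfl (by omega)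
  have p4 : Pr (fun _ => (1/2 : ℝ)) (RE 0 N 0 N) (QC a N) ≤ Pr (fun _ => (1/2 : ℝ)) S (QC a N) := by
    rw [hS, ES_QT]
  have c1 : IncrE S (fun F => armC (QT (3 * a)) (0, 0) (3 * a) (F ∩ ES (QT (3 * a)))) :=
    fun F G h _ hF => hF.mono (Finset.Subset.refl _) (Finset.inter_subset_inter_right h)
  have c2 := LRc_incr S 0 (3 * a) a (3 * a)
  have c3 := TBc_incr S a (3 * a) 0 (3 * a)
  have c4 := QC_incr S a N
  have cc : ∀ {A B : Finset Edg → Prop}, IncrE S A → IncrE S B →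
      IncrE S (fun F => A F ∧ B F) :=
    fun hA hB F G h h' hF => ⟨hA F G h h' hF.1, hB F G h h' hF.2⟩
  have q2 := hmul c1 c2 hd0 p1 p2
  have q3 := hmul (cc c1 c2) c3 hd0 q2 p3
  have q4 := hmul (cc (cc c1 c2) c3) c4 (Pr_nonneg okhalf _ _) q3 p4
  refine q4.trans ?_
  unfold armP
  apply Pr_mono okhalf
  rintro F _ ⟨⟨⟨h1, h2⟩, h3⟩, h4⟩
  exact glue_quarter ha hN h1 h2 h3 h4

/-- The probability of a crossing of a quarter annulus. -/
theorem quarter_bound : ∃ C : ℝ, 0 < C ∧ ∀ a N : ℕ, 1 ≤ a → a ≤ N →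
    Pr (fun _ => (1/2 : ℝ)) (RE 0 N 0 N) (QC a N) ≤ C * ((a:ℝ) / N) ^ (2 / 3 : ℝ) := by
  obtain ⟨c, C, hc, hC, h⟩ := exponents
  obtain ⟨d, hd, hq⟩ : ∃ d : ℝ, 0 < d ∧ ∀ a N : ℤ, 1 ≤ a → 3 * a ≤ N →
      armP (QT (3 * a)) (3 * a) * d * d * Pr (fun _ => (1/2 : ℝ)) (RE 0 N 0 N) (QC a N) ≤
        armP (QT N) N := ⟨dlt, dlt_pos, fun a N h1 h2 => quarter_mul h1 h2⟩
  refine ⟨max 3 (3 * C / (c * d * d)), lt_max_of_lt_left (by norm_num), ?_⟩
  intro a N ha haN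
  have har : (1:ℝ) ≤ a := by exact_mod_cast ha
  have hNr : (1:ℝ) ≤ N := by exact_mod_cast ha.trans haN
  have hq0 : 0 ≤ ((a:ℝ) / N) ^ (2 / 3 : ℝ) := Real.rpow_nonneg (by positivity) _
  by_cases h3 : 3 * a ≤ N
  · refine le_trans ?_ (mul_le_mul_of_nonneg_right (le_max_right _ _) hq0)
    have h1 := (h (3 * a) (by omega)).1.1
    have h2 := (h N (by omega)).1.2
    have h4 := hq (a:ℤ) (N:ℤ) (by omega) (by omega)
    set P := Pr (fun _ => (1/2 : ℝ)) (RE 0 (N:ℤ) 0 (N:ℤ)) (QC (a:ℤ) (N:ℤ)) with hP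
    have hP0 : 0 ≤ P := Pr_nonneg okhalf _ _
    have e1 : ((3 * a : ℕ) : ℤ) = 3 * (a:ℤ) := by push_cast; ring
    rw [e1] at h1
    set A := armP (QT (3 * (a:ℤ))) (3 * (a:ℤ)) with hA
    set B := armP (QT (N:ℤ)) (N:ℤ) with hB
    have e2 : (((3 * a : ℕ) : ℝ)) = 3 * (a:ℝ) := by push_cast; ring
    rw [e2] at h1
    have hN23 : 0 < (N:ℝ) ^ ((2:ℝ) / 3) := Real.rpow_pos_of_pos (by linarith) _
    have ha23 : 0 < (a:ℝ) ^ ((2:ℝ) / 3) := Real.rpow_pos_of_pos (by linarith) _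
    have h33 : (3 * (a:ℝ)) ^ ((2:ℝ) / 3) ≤ 3 * (a:ℝ) ^ ((2:ℝ) / 3) := by
      rw [Real.mul_rpow (by norm_num) (by linarith)]
      apply mul_le_mul_of_nonneg_right _ ha23.le
      calc (3:ℝ) ^ ((2:ℝ) / 3) ≤ (3:ℝ) ^ (1:ℝ) :=
            Real.rpow_le_rpow_of_exponent_le (by norm_num) (by norm_num)
        _ = 3 := Real.rpow_one 3
    have h3a0 : 0 ≤ (3 * (a:ℝ)) ^ ((2:ℝ) / 3) := Real.rpow_nonneg (by linarith) _
    have hcd : 0 < c * d * d := by positivity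
    have hdiv : ((a:ℝ) / N) ^ (2 / 3 : ℝ) = (a:ℝ) ^ ((2:ℝ) / 3) / (N:ℝ) ^ ((2:ℝ) / 3) :=
      Real.div_rpow (by linarith) (by linarith) _
    have hB0 : 0 ≤ B := armP_nonneg _ _
    have k1 : c * d * d * P ≤ (3 * (a:ℝ)) ^ ((2:ℝ) / 3) * B := by
      calc c * d * d * P ≤ ((3 * (a:ℝ)) ^ ((2:ℝ) / 3) * A) * d * d * P := by
            have : 0 ≤ d * d * P := by positivity
            nlinarith
        _ = (3 * (a:ℝ)) ^ ((2:ℝ) / 3) * (A * d * d * P) := by ring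
        _ ≤ _ := mul_le_mul_of_nonneg_left h4 h3a0
    have k2 : (N:ℝ) ^ ((2:ℝ) / 3) * (c * d * d * P) ≤ 3 * (a:ℝ) ^ ((2:ℝ) / 3) * C := by
      calc (N:ℝ) ^ ((2:ℝ) / 3) * (c * d * d * P)
          ≤ (N:ℝ) ^ ((2:ℝ) / 3) * ((3 * (a:ℝ)) ^ ((2:ℝ) / 3) * B) :=
            mul_le_mul_of_nonneg_left k1 hN23.le
        _ = (3 * (a:ℝ)) ^ ((2:ℝ) / 3) * ((N:ℝ) ^ ((2:ℝ) / 3) * B) := by ring
        _ ≤ (3 * (a:ℝ)) ^ ((2:ℝ) / 3) * C := mul_le_mul_of_nonneg_left h2 h3a0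
        _ ≤ _ := mul_le_mul_of_nonneg_right h33 hC.le
    rw [hdiv, div_mul_div_comm, le_div_iff₀ (by positivity)]
    calc P * (c * d * d * (N:ℝ) ^ ((2:ℝ) / 3))
        = (N:ℝ) ^ ((2:ℝ) / 3) * (c * d * d * P) := by ring
      _ ≤ 3 * (a:ℝ) ^ ((2:ℝ) / 3) * C := k2
      _ = 3 * C * (a:ℝ) ^ ((2:ℝ) / 3) := by ring
  · push Not at h3
    refine le_trans ?_ (mul_le_mul_of_nonneg_right (le_max_left _ _) hq0)
    have h1 : Pr (fun _ => (1/2 : ℝ)) (RE 0 (N:ℤ) 0 (N:ℤ)) (QC (a:ℤ) (N:ℤ)) ≤ 1 :=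
      Pr_le_one okhalf _ _
    refine h1.trans ?_
    have h4 : (1:ℝ) / 3 ≤ (a:ℝ) / N := by
      rw [div_le_div_iff₀ (by norm_num) (by linarith)]
      have : (N:ℝ) ≤ 3 * a := by exact_mod_cast h3.le
      linarith
    have h5 : (1:ℝ) / 3 ≤ ((1:ℝ) / 3) ^ (2 / 3 : ℝ) := by
      calc (1:ℝ) / 3 = ((1:ℝ) / 3) ^ (1:ℝ) := (Real.rpow_one _).symm
        _ ≤ _ := Real.rpow_le_rpow_of_exponent_ge (by norm_num) (by norm_num) (by norm_num)
    have h6 : ((1:ℝ) / 3) ^ (2 / 3 : ℝ) ≤ ((a:ℝ) / N) ^ (2 / 3 : ℝ) :=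
      Real.rpow_le_rpow (by norm_num) h4 (by norm_num)
    linarith

end Pool.Agent.Y993.SN
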