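import Pool.Agent.Y554.SN.Stm
import Pool.Agent.Y993.SN.Quarter

/-!
Project SN, part COR: annuli centred at a corner of the square.
-/

set_option autoImplicit false

namespace Pool.Agent.Y993.SN

open H974 H12S H973 Finset Pool.Agent.Y554.SN

/-- A path from the inner box to the outside of the outer box contains a crossing of the annulus. -/
theorem path_ann {z : ℤ × ℤ} {a N : ℕ} (haN : a ≤ N) {G : Set Edg} {w v0 : Vtx}
    (hw : inR (z.1 - a) (z.1 + a) (z.2 - a) (z.2 + a) w)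
    (hv : v0.1 ≤ z.1 - N ∨ z.1 + N ≤ v0.1 ∨ v0.2 ≤ z.2 - N ∨ z.2 + N ≤ v0.2)
    (h : Reach G w v0) :
    ∃ u v : Vtx, inR (z.1 - a) (z.1 + a) (z.2 - a) (z.2 + a) u ∧
      inR (z.1 - N) (z.1 + N) (z.2 - N) (z.2 + N) v ∧
      (v.1 = z.1 - N ∨ v.1 = z.1 + N ∨ v.2 = z.2 - N ∨ v.2 = z.2 + N) ∧
      Reach G w v ∧ Reach (G ∩ ↑(Anz z a N)) u v := by
  obtain ⟨v, h1, h2, h3⟩ := first_exit (a := z.1 - N) (b := z.1 + N) (c := z.2 - N)
    (d := z.2 + N) (by unfold inR at hw ⊢; omega) h hv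
  have key : ∀ x, Reach (G ∩ ↑(RE (z.1 - N) (z.1 + N) (z.2 - N) (z.2 + N))) v x →
      (∃ u, inR (z.1 - a) (z.1 + a) (z.2 - a) (z.2 + a) u ∧ Reach (G ∩ ↑(Anz z a N)) v u) ∨
      (¬ inR (z.1 - a) (z.1 + a) (z.2 - a) (z.2 + a) x ∧ Reach (G ∩ ↑(Anz z a N)) v x) := by
    intro x hx
    induction hx with
    | refl =>
      by_cases hb : inR (z.1 - a) (z.1 + a) (z.2 - a) (z.2 + a) v
      · exact Or.inl ⟨v, hb, Reach.refl _ _⟩
      · exact Or.inr ⟨hb, Reach.refl _ _⟩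
    | @tail x x' _ hs ih =>
      rcases ih with ih | ⟨ih1, ih2⟩
      · exact Or.inl ih
      · obtain ⟨e, ⟨he1, he2⟩, hc⟩ := hs
        have he3 : e ∈ Anz z a N := by
          unfold Anz H12S.blk
          rw [Finset.mem_sdiff]
          refine ⟨Finset.mem_coe.mp he2, fun hcon => ih1 ?_⟩
          have := mem_RE_ends hcon
          rcases hc with ⟨h, _⟩ | ⟨_, h⟩
          · rw [← h]; exact this.1
          · rw [← h]; exact this.2
        have r := ih2.trans (Adj.reach ⟨e, ⟨he1, Finset.mem_coe.mpr he3⟩, hc⟩)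
        by_cases hb : inR (z.1 - a) (z.1 + a) (z.2 - a) (z.2 + a) x'
        · exact Or.inl ⟨x', hb, r⟩
        · exact Or.inr ⟨hb, r⟩
  rcases key w h3.symm with ⟨u, h4, h5⟩ | ⟨h4, _⟩
  · exact ⟨u, v, h4, h1, h2, h3.mono Set.inter_subset_left, h5.symm⟩
  · exact absurd hw h4

/-- The deterministic part. -/
theorem UE_cross {n a N : ℕ} {z : ℤ × ℤ} (haN : a ≤ N) (hz1 : |z.1| = n) (hNn : N ≤ n)
    {F : Finset Edg} (h : UE n z a N F) :
    ∃ u v : Vtx, inR (-n) n (-n) n u ∧ inR (-n) n (-n) n v ∧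
      inR (z.1 - a) (z.1 + a) (z.2 - a) (z.2 + a) u ∧
      inR (z.1 - N) (z.1 + N) (z.2 - N) (z.2 + N) v ∧
      (v.1 = z.1 - N ∨ v.1 = z.1 + N ∨ v.2 = z.2 - N ∨ v.2 = z.2 + N) ∧
      Reach ((F : Set Edg) ∩ (↑(Anz z a N) ∩ ↑(boxE n))) u v := by
  obtain ⟨F', hF', hloc, hC, hnC⟩ := h
  set B : Finset Edg := blk z a ∩ boxE n with hB
  set G : Set Edg := (F' : Set Edg) ∪ ↑B with hG
  have hGb : ∀ e ∈ G, e ∈ RE (-(n:ℤ)) n (-(n:ℤ)) n := by
    rintro e (he | he)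
    · exact hF' (Finset.mem_coe.mp he)
    · exact (Finset.mem_inter.mp (Finset.mem_coe.mp he)).2
  obtain ⟨u0, hu0, v0, hv0, hr⟩ := hC
  have key : ∀ x, Reach G u0 x → (∃ w, inR (z.1 - a) (z.1 + a) (z.2 - a) (z.2 + a) w ∧
      Reach G u0 w) ∨ Reach ((F' : Set Edg) \ ↑B) u0 x := by
    intro x hx
    induction hx with
    | refl => exact Or.inr (Reach.refl _ _)
    | @tail x x' hx hs ih =>
      rcases ih with ih | ih
      · exact Or.inl ih
      · obtain ⟨e, he, hc⟩ := hs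
        by_cases heB : e ∈ B
        · left
          refine ⟨x, ?_, hx⟩
          have := mem_RE_ends (Finset.mem_inter.mp heB).1
          rcases hc with ⟨h, _⟩ | ⟨_, h⟩
          · rw [← h]; exact this.1
          · rw [← h]; exact this.2
        · right
          rcases he with he | he
          · exact ih.trans (Adj.reach ⟨e, ⟨he, fun hcon => heB (Finset.mem_coe.mp hcon)⟩, hc⟩)
          · exact absurd (Finset.mem_coe.mp he) heB
  have hu0b : inR (-(n:ℤ)) n (-(n:ℤ)) n u0 := by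
    unfold Lf lsd at hu0
    obtain ⟨k1, k2, k3⟩ := hu0
    unfold inR
    omega
  rcases key v0 hr with ⟨w, hw, hwr⟩ | hcon
  swap
  · exact absurd ⟨u0, hu0, v0, hv0, hcon⟩ hnC
  have hwb : inR (-(n:ℤ)) n (-(n:ℤ)) n w := reach_inR hGb hu0b hwr
  obtain ⟨t, ht, htr⟩ : ∃ t : Vtx, (t.1 ≤ z.1 - N ∨ z.1 + N ≤ t.1 ∨ t.2 ≤ z.2 - N ∨
      z.2 + N ≤ t.2) ∧ Reach G w t := by
    rcases (abs_eq (by positivity)).mp hz1 with hz | hz
    · refine ⟨u0, Or.inl ?_, hwr.symm⟩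
      unfold Lf lsd at hu0
      obtain ⟨k1, k2, k3⟩ := hu0
      omega
    · refine ⟨v0, Or.inr (Or.inl ?_), hwr.symm.trans hr⟩
      unfold Rt lsd at hv0
      obtain ⟨k1, k2, k3⟩ := hv0
      omega
  obtain ⟨u, v, h1, h2, h3, h4, h5⟩ := path_ann haN hw ht htr
  have hvb : inR (-(n:ℤ)) n (-(n:ℤ)) n v := reach_inR hGb hwb h4
  have hub : inR (-(n:ℤ)) n (-(n:ℤ)) n u :=
    reach_inR (F := G ∩ ↑(Anz z a N)) (fun e he => hGb e he.1) hvb h5.symm
  refine ⟨u, v, hub, hvb, h1, h2, h3, h5.mono ?_⟩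
  rintro e ⟨he1, he2⟩
  have he3 := Finset.mem_coe.mp he2
  have he4 : e ∈ F' := by
    rcases he1 with he | he
    · exact Finset.mem_coe.mp he
    · exfalso
      unfold Anz at he3
      exact (Finset.mem_sdiff.mp he3).2 (Finset.mem_inter.mp (Finset.mem_coe.mp he)).1
  have he5 : e ∈ F ∩ Anz z a N := hloc ▸ Finset.mem_inter.mpr ⟨he4, he3⟩
  exact ⟨Finset.mem_coe.mpr (Finset.mem_inter.mp he5).1, he2, Finset.mem_coe.mpr (hGb e he1)⟩

/-- Composition of symmetries. -/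
def cmp (g h : LSym) : LSym where
  φ := g.φ.trans h.φ
  ψ := g.ψ.trans h.ψ
  compat := by
    intro e
    simp only [Equiv.trans_apply]
    rcases g.compat e with ⟨h1, h2⟩ | ⟨h1, h2⟩ <;>
    rcases h.compat (g.φ e) with ⟨h3, h4⟩ | ⟨h3, h4⟩ <;>
    rw [h3, h4, h1, h2] <;> simp

theorem cor_g (g : LSym) {n a N : ℕ} {z : ℤ × ℤ} (haN : a ≤ N) (hz1 : |z.1| = n) (hNn : N ≤ n)
    (hg : ∀ p : Vtx, inR (-n) n (-n) n p → g.ψ p = (|p.1 - z.1|, |p.2 - z.2|)) :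
    PQ (1 / 2) (boxE n) (UE n z a N) ≤
      Pr (fun _ => (1/2 : ℝ)) (RE 0 (N:ℤ) 0 (N:ℤ)) (QC (a:ℤ) (N:ℤ)) := by
  have i1 : PQ (1 / 2) (boxE n) (UE n z a N) ≤
      Pr (fun _ => (1/2 : ℝ)) (boxE n) (fun F => QC (a:ℤ) (N:ℤ) (g.mp F)) := by
    apply Pr_mono okhalf
    intro F hF h
    obtain ⟨u, v, h1, h2, h3, h4, h5, h6⟩ := UE_cross haN hz1 hNn h
    refine ⟨g.ψ u, g.ψ v, ?_, ?_, ?_, ?_⟩
    · rw [hg u h1]
      unfold inR at h3 ⊢
      simp only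
      exact ⟨⟨abs_nonneg _, abs_le.mpr (by omega)⟩, abs_nonneg _, abs_le.mpr (by omega)⟩
    · rw [hg v h2]
      unfold inR at h4 ⊢
      simp only
      exact ⟨⟨abs_nonneg _, abs_le.mpr (by omega)⟩, abs_nonneg _, abs_le.mpr (by omega)⟩
    · rw [hg v h2]
      simp only
      rcases h5 with h | h | h | h
      · left; rw [h, show z.1 - (N:ℤ) - z.1 = -(N:ℤ) by ring, abs_neg]; exact abs_of_nonneg (by omega)
      · left; rw [h, show z.1 + (N:ℤ) - z.1 = (N:ℤ) by ring]; exact abs_of_nonneg (by omega)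
      · right; rw [h, show z.2 - (N:ℤ) - z.2 = -(N:ℤ) by ring, abs_neg]; exact abs_of_nonneg (by omega)
      · right; rw [h, show z.2 + (N:ℤ) - z.2 = (N:ℤ) by ring]; exact abs_of_nonneg (by omega)
    · refine (g.reach h6).mono ?_
      rintro _ ⟨e, ⟨he1, he2, he3⟩, rfl⟩
      refine ⟨?_, ?_⟩
      · rw [Finset.mem_coe, LSym.mem_mp, Equiv.symm_apply_apply]
        exact Finset.mem_coe.mp he1
      · have e3 := mem_RE_ends (Finset.mem_coe.mp he3)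
        have e2 := mem_RE_ends (Finset.mem_sdiff.mp (Finset.mem_coe.mp he2)).1
        have hp : ∀ p : Vtx, inR (-(n:ℤ)) n (-(n:ℤ)) n p →
            inR (z.1 - N) (z.1 + N) (z.2 - N) (z.2 + N) p → inR 0 (N:ℤ) 0 (N:ℤ) (g.ψ p) := by
          intro p p1 p2
          rw [hg p p1]
          unfold inR at p2 ⊢
          simp only
          exact ⟨⟨abs_nonneg _, abs_le.mpr (by omega)⟩, abs_nonneg _, abs_le.mpr (by omega)⟩
        rw [Finset.mem_coe]
        rcases g.compat e with ⟨k1, k2⟩ | ⟨k1, k2⟩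
        · exact mem_RE_of_ends (by rw [k1]; exact hp _ e3.1 e2.1) (by rw [k2]; exact hp _ e3.2 e2.2)
        · exact mem_RE_of_ends (by rw [k1]; exact hp _ e3.2 e2.2) (by rw [k2]; exact hp _ e3.1 e2.1)
  have i2 : Pr (fun _ => (1/2 : ℝ)) (boxE n) (fun F => QC (a:ℤ) (N:ℤ) (g.mp F)) =
      Pr (fun _ => (1/2 : ℝ)) (g.mp (boxE n)) (QC (a:ℤ) (N:ℤ)) := (g.pr _ _ _).symm
  have i3 : Pr (fun _ => (1/2 : ℝ)) (g.mp (boxE n)) (QC (a:ℤ) (N:ℤ)) ≤
      Pr (fun _ => (1/2 : ℝ)) (g.mp (boxE n) ∪ RE 0 (N:ℤ) 0 (N:ℤ)) (QC (a:ℤ) (N:ℤ)) :=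
    Pr_mono_set okhalf Finset.subset_union_left (QC_incr _ _ _)
  have i4 : Pr (fun _ => (1/2 : ℝ)) (g.mp (boxE n) ∪ RE 0 (N:ℤ) 0 (N:ℤ)) (QC (a:ℤ) (N:ℤ)) =
      Pr (fun _ => (1/2 : ℝ)) (RE 0 (N:ℤ) 0 (N:ℤ)) (QC (a:ℤ) (N:ℤ)) := by
    apply Pr_local Finset.subset_union_right
    intro F _
    unfold QC
    rw [coe_inter_eq (Finset.Subset.refl _)]
  calc PQ (1 / 2) (boxE n) (UE n z a N) ≤ _ := i1
    _ = _ := i2
    _ ≤ _ := i3
    _ = _ := i4

/-- **COR.** -/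
theorem cor : S_COR := by
  obtain ⟨C, hC, h⟩ := quarter_bound
  refine ⟨C, hC, ?_⟩
  intro n a N z ha haN hz1 hz2 hNn
  refine le_trans ?_ (h a N ha haN)
  rcases (abs_eq (by positivity)).mp hz1 with k1 | k1 <;>
  rcases (abs_eq (by positivity)).mp hz2 with k2 | k2
  · refine cor_g (cmp (rfx n) (rfy n)) haN hz1 hNn ?_
    rintro ⟨x, y⟩ hp
    unfold inR at hp
    simp only at hp
    rw [k1, k2]
    simp only [cmp, Equiv.trans_apply, rfx_ψ, rfy_ψ]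
    rw [abs_of_nonpos (by omega), abs_of_nonpos (by omega)]
    ext <;> simp
  · refine cor_g (cmp (rfx n) (trl 0 n)) haN hz1 hNn ?_
    rintro ⟨x, y⟩ hp
    unfold inR at hp
    simp only at hp
    rw [k1, k2]
    simp only [cmp, Equiv.trans_apply, rfx_ψ, trl_ψ]
    rw [abs_of_nonpos (by omega), abs_of_nonneg (by omega)]
    ext <;> simp
  · refine cor_g (cmp (trl n 0) (rfy n)) haN hz1 hNn ?_
    rintro ⟨x, y⟩ hp
    unfold inR at hp
    simp only at hp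
    rw [k1, k2]
    simp only [cmp, Equiv.trans_apply, rfy_ψ, trl_ψ]
    rw [abs_of_nonneg (by omega), abs_of_nonpos (by omega)]
    ext <;> simp
  · refine cor_g (trl n n) haN hz1 hNn ?_
    rintro ⟨x, y⟩ hp
    unfold inR at hp
    simp only at hp
    rw [k1, k2]
    simp only [trl_ψ]
    rw [abs_of_nonneg (by omega), abs_of_nonneg (by omega)]
    ext <;> simp

end Pool.Agent.Y993.SN
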